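import Mathlib

set_option autoImplicit false

namespace Pool.Agent.Results.MP_110f0a_gt.KSpaceNotFrechet

open Set Filter Topology

/-- `Z` is a k-space: a set is closed whenever its trace on every compact set `K` is closed in `K`. -/
def IsKSpace (Z : Type) [TopologicalSpace Z] : Prop :=
  ∀ A : Set Z, (∀ K : Set Z, IsCompact K → IsClosed ((↑) ⁻¹' A : Set K)) → IsClosed A

/-- `Z` is a Fréchet–Urysohn space. -/
def IsFrechetUrysohn (Z : Type) [TopologicalSpace Z] : Prop :=
  ∀ (A : Set Z) (z : Z), z ∈ closure A → ∃ a : ℕ → Z, (∀ n, a n ∈ A) ∧ Tendsto a atTop (𝓝 z)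

/-- `X` is zero-dimensional: the clopen sets form a base. -/
def IsZeroDimensional (X : Type) [TopologicalSpace X] : Prop :=
  TopologicalSpace.IsTopologicalBasis {s : Set X | IsClopen s}

/-- There is a zero-dimensional Tychonoff space `X` such that `C_p(X, {0,1})` (the space of
continuous maps `X → {0,1}` as a subspace of the product `{0,1}^X`) is a k-space but is not
Fréchet–Urysohn. -/
theorem result : ∃ (X : Type) (_ : TopologicalSpace X), T35Space X ∧ IsZeroDimensional X ∧
    IsKSpace {f : X → Bool // Continuous f} ∧ ¬ IsFrechetUrysohn {f : X → Bool // Continuous f} := by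
  refine ⟨ULift (Set ℕ), ⊥, ?_⟩
  let _ : TopologicalSpace (ULift (Set ℕ)) := ⊥
  have : DiscreteTopology (ULift (Set ℕ)) := ⟨rfl⟩
  refine ⟨inferInstance, ?_, ?_, ?_⟩
  · apply TopologicalSpace.isTopologicalBasis_of_isOpen_of_nhds
    · intro u hu; exact hu.isOpen
    · intro a u ha hu
      exact ⟨u, isClopen_discrete u, ha, Subset.rfl⟩
  · intro A hA
    have hc : CompactSpace {f : ULift (Set ℕ) → Bool // Continuous f} := by
      have hcl : IsClosed {f : ULift (Set ℕ) → Bool | Continuous f} := by
        have : {f : ULift (Set ℕ) → Bool | Continuous f} = univ := by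
          ext f; simp [continuous_of_discreteTopology]
        rw [this]; exact isClosed_univ
      exact isCompact_iff_compactSpace.1 hcl.isCompact
    have h := hA univ isCompact_univ
    have h2 : IsClosed ((Homeomorph.Set.univ {f : ULift (Set ℕ) → Bool // Continuous f}).symm ⁻¹'
        ((↑) ⁻¹' A)) := h.preimage (Homeomorph.continuous _)
    exact h2
  · intro hFU
    set A : Set {f : ULift (Set ℕ) → Bool // Continuous f} := {f | {x | f.1 x = true}.Finite} with hA
    set z : {f : ULift (Set ℕ) → Bool // Continuous f} := ⟨fun _ => true, continuous_const⟩ with hz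
    have hzA : z ∈ closure A := by
      rw [mem_closure_iff_nhds]
      intro N hN
      obtain ⟨W, hW, hWN⟩ := (mem_nhds_subtype _ _ _).1 hN
      rw [nhds_pi, Filter.mem_pi'] at hW
      obtain ⟨I, u, hu, hIu⟩ := hW
      classical
      refine ⟨⟨fun x => decide (x ∈ I), continuous_of_discreteTopology⟩, hWN (hIu ?_), ?_⟩
      · intro x hx
        have : decide (x ∈ I) = true := decide_eq_true hx
        show decide (x ∈ I) ∈ u x
        rw [this]
        exact mem_of_mem_nhds (hu x)
      · show {x | decide (x ∈ I) = true}.Finite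
        have : {x | decide (x ∈ I) = true} = (I : Set (ULift (Set ℕ))) := by
          ext x; simp
        rw [this]; exact I.finite_toSet
    obtain ⟨a, ha, hat⟩ := hFU A z hzA
    have hcount : (⋃ n, {x | (a n).1 x = true}).Countable :=
      countable_iUnion fun n => (ha n).countable
    have huniv : (⋃ n, {x | (a n).1 x = true}) = univ := by
      rw [eq_univ_iff_forall]
      intro x
      have h1 : Tendsto (fun n => (a n).1 x) atTop (𝓝 true) :=
        (((continuous_apply x).comp continuous_subtype_val).tendsto z).comp hat
      rw [nhds_discrete, Filter.tendsto_pure] at h1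
      obtain ⟨n, hn⟩ := h1.exists
      exact mem_iUnion.2 ⟨n, hn⟩
    rw [huniv, countable_univ_iff] at hcount
    have hcount' : Countable (Set ℕ) := Equiv.ulift.countable_iff.1 hcount
    obtain ⟨e, he⟩ := exists_surjective_nat (Set ℕ)
    exact Function.cantor_surjective e he

end Pool.Agent.Results.MP_110f0a_gt.KSpaceNotFrechet
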